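import Pool.Agent.U586.CP.CProofs

/-!
# The noncommutative Kunneth conjecture does not depend on the coefficient field

The conjecture `C_NC (A)` of the problem is posed for a base field `k` and a coefficient field `F` which
contains `k` or is contained in `k`. We show that for a perfect field `k` it does not depend on `F`:

* if `k` has characteristic zero, it is equivalent to the conjecture with coefficients in `ℚ`;
* if `k` has characteristic `p > 0`, it is equivalent to the conjecture with coefficients in the prime
  field, and also to an integral statement: `TP_* (A)` has no `p`-torsion, and its projector onto the even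
  part is given by an element of `K_0 (A^op ⊗ A)` divided by an integer prime to `p`.

In characteristic `p` the main point is the descent from the Witt vectors of `k` to the localisation of
the integers at `p`: the intersection numbers of correspondences are integers, an integral linear algebra
argument gives a correspondence with denominator prime to `p` which is numerically equivalent to the
projector, and a polynomial in this correspondence with integral coefficients is the projector.
-/

set_option autoImplicit false

open CategoryTheory Module TensorProduct Limits MonoidalCategory

namespace Pool.Agent.Results.MP_eadf0f_ag.CoefficientFields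

open Pool.Agent.Results.MP_eadf0f_ag.EveryPositiveCharacteristic
open Pool.Agent.Results.MP_8f22fa_ag.IntegralProjectors
open Pool.Agent.U586.CP.CF Pool.Agent.Y112.SR Pool.Agent.Y112.KD Pool.Agent.R484.NC Pool.Agent.N164.NC

universe u v w u' v' w'

/-- **The noncommutative Kunneth conjecture does not depend on the coefficient field.**

(1) Let `k` be a perfect field of characteristic `p > 0` and `A` a saturated dg category over `k`. The
following are equivalent: one of the Kunneth projectors on `HP_± (A)` is algebraic for one coefficient
field; the Kunneth projectors are algebraic for all coefficient fields; `TP_* (A)` has no `p`-torsion and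
its even projector is a combination of correspondences with coefficients in the Witt vectors of `k`;
`TP_* (A)` has no `p`-torsion and its even projector is a correspondence divided by an integer prime to
`p`.

(2) Let `k` be a field of characteristic zero, `R` a realisation over `k` (for example `HP_±`) and `M` an
object of `N` (for example `U (A)`). The following are equivalent: the Kunneth projector is algebraic for
one coefficient field; it is algebraic for all coefficient fields; it is given by an endomorphism of `M`
in `N`, that is, algebraic with coefficients in `ℚ`. -/
theorem result :
    (∀ (p : ℕ) [Fact p.Prime] (T : Theory.{u, v, w} p) (k : Type) [Field k] [CharP k p]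
      [PerfectRing k p] (N : Chow.{u', v'})
      (ρ : Rational (T.M k).Cat (FractionRing (WittVector p k)) N), IsTP T k ρ → IsIntegral ρ →
      ∀ A : (T.M k).Cat, List.TFAE [Some (T.M k) A, All (T.M k) A, IntegralC T A,
        TorsionFree (T.TP k) p A ∧ LocalPlus (T.TP k) p A]) ∧
    ∀ (k : Type) [Field k] (N : Chow.{u', v'}) (R : SuperRealisation N.C k) (M : N.C),
      List.TFAE [∃ (F E : Type) (_ : Field F) (_ : Field E) (_ : Algebra k E) (_ : Algebra F E),
        AlgebraicOver R M F E,
        ∀ (F E : Type) [Field F] [Field E] [Algebra k E] [Algebra F E], AlgebraicOver R M F E,
        R.CPlus M] := by
  refine ⟨fun p _ T k _ _ _ N ρ hρ hI A => ?_, fun k _ N R M => char_zero R M⟩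
  tfae_have 1 → 3 := by
    rintro ⟨F, E, _, _, _, _, h⟩
    exact (Pool.Agent.Results.MP_8f22fa_ag.IntegralProjectors.result.{u, v, w, u', v'} p T k A).1
      F E h
  tfae_have 3 → 4 := fun h => ⟨h.1, local_of T ρ hρ hI A h.1 h.2⟩
  tfae_have 4 → 2 := fun h F E _ _ _ _ =>
    ⟨plus_of_local T F E A h.1 h.2, minus_of_plus T F E A (plus_of_local T F E A h.1 h.2)⟩
  tfae_have 2 → 1 := fun h => ⟨k, k, inferInstance, inferInstance, inferInstance, inferInstance,
    Or.inl (h k k).1⟩
  tfae_finish

end Pool.Agent.Results.MP_eadf0f_ag.CoefficientFields
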