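import Pool.Agent.U586.CN.Rank

/-!
# The noncommutative Kunneth conjecture fails over every field of positive characteristic

The problem allows every base field `k` and a coefficient field `F ⊇ k` or `F ⊆ k`. Let `k` have
characteristic `p > 0`. We show that over every such `k`, and for all coefficient fields, there are
saturated dg categories whose Kunneth projectors are not algebraic. The starting hand-in has this for
some imperfect fields, with `p > 2`, where the reason is the lack of rational points; here `k` can be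
finite or algebraically closed, and `p = 2` is allowed.

Reason: let `k` be perfect. Then `HP (A) = TP (A) / p`, naturally for all noncommutative
correspondences, where `TP` is the topological periodic cyclic homology, a finitely generated module
over the Witt vectors. Suppose that the `p`-power torsion of `TP ε (A)` is not zero, and let `p ^ n` be
its exponent. The multiplication by `p ^ (n - 1)` is a nonzero map from the image of the torsion in
`TP ε (A) / p ⊆ HP ε (A)` to `TP ε (A)[p]`, a quotient of `HP (ε + 1) (A)`. It commutes with all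
correspondences, so no linear combination of correspondences can act by different scalars on the
parts `HP ε (A)` and `HP (ε + 1) (A)` (a Bockstein operator). For a surface `X` with `b_1 = b_3 = 0` but
`H^1_dR(X) ≠ 0` there is torsion, because the ranks are too small. For imperfect `k` we extend the
base field.
-/

set_option autoImplicit false

open CategoryTheory Module TensorProduct

namespace Pool.Agent.Results.MP_eadf0f_ag.EveryPositiveCharacteristic

open Pool.Agent.U586.CN

universe u v w

/-- An additive functor from `C` to pairs of modules over `R`: the modules `obj 0 A` (the even part) and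
`obj 1 A` (the odd part), and the linear maps `act ε z` of the morphisms `z`. -/
structure SuperFunctor (R : Type) [CommRing R] (C : Type u) [Category.{v} C] [Preadditive C] where
  /-- the modules -/
  obj : ZMod 2 → C → Type w
  [group : ∀ ε A, AddCommGroup (obj ε A)]
  [module : ∀ ε A, Module R (obj ε A)]
  /-- the action of the morphisms -/
  act : ∀ (ε : ZMod 2) {A B : C}, (A ⟶ B) → obj ε A → obj ε B
  linear : ∀ (ε : ZMod 2) {A B : C} (z : A ⟶ B), IsLinearMap R (act ε z)
  add : ∀ (ε : ZMod 2) {A B : C} (y z : A ⟶ B) (x : obj ε A),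
    act ε (y + z) x = act ε y x + act ε z x
  id : ∀ (ε : ZMod 2) (A : C) (x : obj ε A), act ε (𝟙 A) x = x
  comp : ∀ (ε : ZMod 2) {A B D : C} (y : A ⟶ B) (z : B ⟶ D) (x : obj ε A),
    act ε (y ≫ z) x = act ε z (act ε y x)

attribute [instance] SuperFunctor.group SuperFunctor.module

/-- Noncommutative correspondences between the saturated dg categories over `k`, and periodic cyclic
homology. -/
structure Motives (k : Type) [Field k] where
  /-- the saturated dg categories over `k` -/
  Cat : Type u
  /-- the morphisms from `A` to `B` are the elements of `K_0(A^op ⊗ B)` -/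
  [category : Category.{v} Cat]
  /-- the addition of `K_0` -/
  [preadditive : Preadditive Cat]
  /-- periodic cyclic homology, with the even part `HP⁺` and the odd part `HP⁻` -/
  HP : SuperFunctor.{u, v, w} k Cat

attribute [instance] Motives.category Motives.preadditive

/-- The maps in the long exact sequence of a cofibre sequence `T → T → H`, the first map being the
multiplication by `p`: the reduction `T ε → H ε` and the boundary `H (ε + 1) → T ε`, linear over the
ring homomorphism `θ`. -/
structure Maps {W k : Type} [CommRing W] [Field k] (θ : W → k) {C : Type u} [Category.{v} C]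
    [Preadditive C] (T : SuperFunctor.{u, v, w} W C) (H : SuperFunctor.{u, v, w} k C) where
  /-- the reduction -/
  red : ∀ (ε : ZMod 2) (A : C), T.obj ε A → H.obj ε A
  /-- the boundary -/
  bdry : ∀ (ε : ZMod 2) (A : C), H.obj (ε + 1) A → T.obj ε A
  red_add : ∀ ε A x y, red ε A (x + y) = red ε A x + red ε A y
  bdry_add : ∀ ε A x y, bdry ε A (x + y) = bdry ε A x + bdry ε A y
  red_smul : ∀ ε A c x, red ε A (c • x) = θ c • red ε A x
  bdry_smul : ∀ ε A c x, bdry ε A (θ c • x) = c • bdry ε A x

/-- The sequences `T ε → T ε → H ε`, `T (ε + 1) → H (ε + 1) → T ε` and `H (ε + 1) → T ε → T ε` are exact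
and the maps commute with the action of all morphisms (correspondences). -/
structure Maps.IsExact {W k : Type} [CommRing W] [Field k] {θ : W → k} {C : Type u}
    [Category.{v} C] [Preadditive C] {T : SuperFunctor.{u, v, w} W C}
    {H : SuperFunctor.{u, v, w} k C} (S : Maps θ T H) (p : ℕ) : Prop where
  red_natural : ∀ (ε : ZMod 2) (A B : C) (z : A ⟶ B) (x : T.obj ε A),
    S.red ε B (T.act ε z x) = H.act ε z (S.red ε A x)
  bdry_natural : ∀ (ε : ZMod 2) (A B : C) (z : A ⟶ B) (x : H.obj (ε + 1) A),
    S.bdry ε B (H.act (ε + 1) z x) = T.act ε z (S.bdry ε A x)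
  exact_red : ∀ ε A x, S.red ε A x = 0 ↔ ∃ y, x = p • y
  exact_mid : ∀ ε A x, S.bdry ε A x = 0 ↔ ∃ y, x = S.red (ε + 1) A y
  exact_bdry : ∀ (ε : ZMod 2) (A : C) (x : T.obj ε A), p • x = 0 ↔ ∃ y, x = S.bdry ε A y

/-- Extension of the base field from `k` to `k'`: the functor `A ↦ A ⊗ k'`, and the isomorphism
`HP (A) ⊗ k' = HP (A ⊗ k')`. -/
structure Extension {k k' : Type} [Field k] [Field k'] [Algebra k k'] (M : Motives.{u, v, w} k)
    (M' : Motives.{u, v, w} k') where
  /-- the functor `A ↦ A ⊗ k'` -/
  func : M.Cat ⥤ M'.Cat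
  /-- `HP (A) ⊗ k' = HP (A ⊗ k')` -/
  iso : ∀ (ε : ZMod 2) (A : M.Cat), (k' ⊗[k] M.HP.obj ε A) ≃ₗ[k'] M'.HP.obj ε (func.obj A)

/-- The map `HP (A) → HP (A ⊗ k')`. -/
def Extension.incl {k k' : Type} [Field k] [Field k'] [Algebra k k'] {M : Motives.{u, v, w} k}
    {M' : Motives.{u, v, w} k'} (B : Extension M M') (ε : ZMod 2) (A : M.Cat)
    (x : M.HP.obj ε A) : M'.HP.obj ε (B.func.obj A) := B.iso ε A (1 ⊗ₜ x)

/-- The isomorphism `HP (A) ⊗ k' = HP (A ⊗ k')` is compatible with correspondences. -/
def Extension.IsNatural {k k' : Type} [Field k] [Field k'] [Algebra k k']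
    {M : Motives.{u, v, w} k} {M' : Motives.{u, v, w} k'} (B : Extension M M') : Prop :=
  ∀ (ε : ZMod 2) (A D : M.Cat) (z : A ⟶ D) (x : M.HP.obj ε A),
    B.incl ε D (M.HP.act ε z x) = M'.HP.act ε (B.func.map z) (B.incl ε A x)

/-- The correspondence `∑ c_i z_i` from `A` to `A` with coefficients `c_i` in `F`, an element of
`K_0(A^op ⊗ A) ⊗ F`, acts on the part `ε` of `HP (A) ⊗ E` as the multiplication by `a`. Here `E` is a
field which contains `k` and `F`. -/
def Motives.ActsBy {k : Type} [Field k] (M : Motives.{u, v, w} k) {F E : Type} [Field F]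
    [Field E] [Algebra k E] [Algebra F E] {A : M.Cat} {n : ℕ} (c : Fin n → F)
    (z : Fin n → (A ⟶ A)) (ε : ZMod 2) (a : E) : Prop :=
  ∀ x, ∑ i, algebraMap F E (c i) ⊗ₜ[k] M.HP.act ε (z i) x = a ⊗ₜ[k] x

/-- The operator which is the multiplication by `a` on `HP⁺ (A) ⊗ E` and by `b` on `HP⁻ (A) ⊗ E` is
algebraic: it is the operator of a correspondence with coefficients in `F`. -/
def Motives.Algebraic {k : Type} [Field k] (M : Motives.{u, v, w} k) (F E : Type) [Field F]
    [Field E] [Algebra k E] [Algebra F E] (A : M.Cat) (a b : E) : Prop :=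
  ∃ (n : ℕ) (c : Fin n → F) (z : Fin n → (A ⟶ A)), M.ActsBy c z 0 a ∧ M.ActsBy c z 1 b

/-- The Kunneth projector `π⁺` of `A` is algebraic. -/
def Motives.PlusAlgebraic {k : Type} [Field k] (M : Motives.{u, v, w} k) (F E : Type) [Field F]
    [Field E] [Algebra k E] [Algebra F E] (A : M.Cat) : Prop := M.Algebraic F E A 1 0

/-- The Kunneth projector `π⁻` of `A` is algebraic. -/
def Motives.MinusAlgebraic {k : Type} [Field k] (M : Motives.{u, v, w} k) (F E : Type) [Field F]
    [Field E] [Algebra k E] [Algebra F E] (A : M.Cat) : Prop := M.Algebraic F E A 0 1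

/-- Some correspondence with coefficients in `F` acts on `HP⁺ (A)` and on `HP⁻ (A)` by two different
scalars in `E`. -/
def Motives.Separated {k : Type} [Field k] (M : Motives.{u, v, w} k) (F E : Type) [Field F]
    [Field E] [Algebra k E] [Algebra F E] (A : M.Cat) : Prop :=
  ∃ a b : E, a ≠ b ∧ M.Algebraic F E A a b

/-- The known facts about noncommutative motives in characteristic `p`. -/
structure Theory (p : ℕ) [Fact p.Prime] where
  /-- noncommutative correspondences and periodic cyclic homology over all fields -/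
  M : ∀ (k : Type) [Field k] [CharP k p], Motives.{u, v, w} k
  /-- topological periodic cyclic homology over perfect fields: modules over the Witt vectors -/
  TP : ∀ (k : Type) [Field k] [CharP k p] [PerfectRing k p],
    SuperFunctor.{u, v, w} (WittVector p k) (M k).Cat
  finite : ∀ (k : Type) [Field k] [CharP k p] [PerfectRing k p] (ε : ZMod 2) (A : (M k).Cat),
    Module.Finite (WittVector p k) ((TP k).obj ε A)
  /-- the long exact sequence of `HP (A) = TP (A) / p` -/
  maps : ∀ (k : Type) [Field k] [CharP k p] [PerfectRing k p],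
    Maps (fun c : WittVector p k => c.coeff 0) (TP k) (M k).HP
  exact : ∀ (k : Type) [Field k] [CharP k p] [PerfectRing k p], (maps k).IsExact p
  /-- extension of the base field -/
  bc : ∀ (k k' : Type) [Field k] [CharP k p] [Field k'] [CharP k' p] [Algebra k k'],
    Extension (M k) (M k')
  natural : ∀ (k k' : Type) [Field k] [CharP k p] [Field k'] [CharP k' p] [Algebra k k'],
    (bc k k').IsNatural

section theory

variable {p : ℕ} [Fact p.Prime] (T : Theory.{u, v, w} p) {k : Type} [Field k] [CharP k p]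
  (k' : Type) [Field k'] [CharP k' p] [PerfectRing k' p] [Algebra k k']

/-- The part `ε` of the topological periodic cyclic homology of `A ⊗ k'`. -/
abbrev Theory.tp (A : (T.M k).Cat) (ε : ZMod 2) : Type w :=
  (T.TP k').obj ε ((T.bc k k').func.obj A)

/-- The rank of the part `ε` of the topological periodic cyclic homology of `A ⊗ k'`. -/
noncomputable def Theory.rank (A : (T.M k).Cat) (ε : ZMod 2) : ℕ :=
  finrank (WittVector p k') (T.tp k' A ε)

/-- The topological periodic cyclic homology of `A ⊗ k'` has no `p`-torsion. -/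
def Theory.NoTorsion (A : (T.M k).Cat) : Prop :=
  ∀ (ε : ZMod 2) (x : T.tp k' A ε), p • x = 0 → x = 0

/-- The dimension of the part `ε` of the periodic cyclic homology of `A`. -/
noncomputable def Theory.dim (A : (T.M k).Cat) (ε : ZMod 2) : ℕ :=
  finrank k ((T.M k).HP.obj ε A)

/-- `TP_*(A ⊗ k')` has no `p`-torsion, and the dimensions of `HP⁺ (A)` and `HP⁻ (A)` are the ranks of
`TP⁺ (A ⊗ k')` and `TP⁻ (A ⊗ k')`. -/
def Theory.IsGood (A : (T.M k).Cat) : Prop :=
  T.NoTorsion k' A ∧ ∀ ε, T.dim A ε = T.rank k' A ε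

end theory

/-- The dg categories `perf_dg(X_k)` of the base changes of a smooth projective surface `X` over the
prime field with `b_1(X) = 0` and `H^1_dR(X) ≠ 0`. Such surfaces exist for every `p`: quotients of
complete intersections by free actions of the cyclic group of order `p` (Serre); for `p = 2` also
Enriques surfaces. -/
structure Surface {p : ℕ} [Fact p.Prime] (T : Theory.{u, v, w} p) where
  /-- the dg category of perfect complexes on `X_k` -/
  perf : ∀ (k : Type) [Field k] [CharP k p], (T.M k).Cat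
  /-- the Betti numbers of `X`, the ranks of the crystalline cohomology -/
  b : ℕ → ℕ
  /-- the dimensions of the de Rham cohomology of `X` -/
  h : ℕ → ℕ
  /-- `TP⁻` has the rank of `H^1_crys(X) ⊕ H^3_crys(X)` -/
  rank : ∀ (k k' : Type) [Field k] [CharP k p] [Field k'] [CharP k' p] [PerfectRing k' p]
    [Algebra k k'], T.rank k' (perf k) 1 = b 1 + b 3
  /-- `HP⁻` has the dimension of `H^1_dR(X) ⊕ H^3_dR(X)` -/
  dim : ∀ (k : Type) [Field k] [CharP k p], T.dim (perf k) 1 = h 1 + h 3
  b_one : b 1 = 0
  b_three : b 3 = 0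
  h_one : h 1 ≠ 0

/-! ### Proofs -/

namespace SuperFunctor

variable {R : Type} [CommRing R] {C : Type u} [Category.{v} C] [Preadditive C]
  (H : SuperFunctor.{u, v, w} R C)

/-- The linear map of a morphism. -/
def lin (ε : ZMod 2) {A B : C} (z : A ⟶ B) : H.obj ε A →ₗ[R] H.obj ε B := (H.linear ε z).mk' _

/-- The pairs of linear operators on the even and the odd part. -/
abbrev Op (A : C) := ∀ ε : ZMod 2, Module.End R (H.obj ε A)

/-- The linear combinations of the operators given by morphisms. -/
def alg (A : C) : Submodule R (H.Op A) :=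
  Submodule.span R (Set.range fun (z : A ⟶ A) (ε : ZMod 2) => H.lin ε z)

end SuperFunctor

/-- Reduction to coefficients in `k`. -/
lemma Motives.exists_alg {k : Type} [Field k] (M : Motives.{u, v, w} k) {F E : Type} [Field F]
    [Field E] [Algebra k E] [Algebra F E] (A : M.Cat) (a b : E) (hab : a ≠ b)
    (h : M.Algebraic F E A a b) : ∃ a' b' : k, a' ≠ b' ∧ ∃ T ∈ M.HP.alg A,
      T 0 = a' • LinearMap.id ∧ T 1 = b' • LinearMap.id := by
  obtain ⟨n, c, z, h0, h1⟩ := h
  obtain ⟨l, hl⟩ : ∃ l : E →ₗ[k] k, l (a - b) ≠ 0 := by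
    by_contra hcon
    push Not at hcon
    exact sub_ne_zero.2 hab ((Module.forall_dual_apply_eq_zero_iff k (a - b)).1 hcon)
  have key : ∀ (ε : ZMod 2) (e : E), M.ActsBy c z ε e →
      (∑ i, l (algebraMap F E (c i)) • (fun δ => M.HP.lin δ (z i) : M.HP.Op A)) ε =
        l e • LinearMap.id := by
    intro ε e he
    ext x
    have h2 := congrArg (fun t => TensorProduct.lid k _ (l.rTensor (M.HP.obj ε A) t)) (he x)
    simp only [map_sum, LinearMap.rTensor_tmul, TensorProduct.lid_tmul] at h2
    rw [Finset.sum_apply, LinearMap.sum_apply]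
    exact h2
  refine ⟨l a, l b, ?_, _, Submodule.sum_mem _ fun i _ => Submodule.smul_mem _
    (l (algebraMap F E (c i))) (Submodule.subset_span ⟨z i, rfl⟩), key 0 a h0, key 1 b h1⟩
  rw [map_sub] at hl
  exact sub_ne_zero.1 hl

/-- Extension of the base field for combinations of correspondences. -/
lemma Extension.alg {k k' : Type} [Field k] [Field k'] [Algebra k k'] {M : Motives.{u, v, w} k}
    {M' : Motives.{u, v, w} k'} (B : Extension M M') (hB : B.IsNatural) (A : M.Cat)
    {T : M.HP.Op A} (hT : T ∈ M.HP.alg A) :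
    ∃ T' ∈ M'.HP.alg (B.func.obj A), ∀ (ε : ZMod 2) (x : M.HP.obj ε A),
      T' ε (B.iso ε A (1 ⊗ₜ x)) = B.iso ε A (1 ⊗ₜ T ε x) := by
  induction hT using Submodule.span_induction with
  | mem T hT =>
    obtain ⟨z, rfl⟩ := hT
    exact ⟨_, Submodule.subset_span ⟨B.func.map z, rfl⟩, fun ε x => (hB ε A A z x).symm⟩
  | zero =>
    refine ⟨0, Submodule.zero_mem _, fun ε x => ?_⟩
    have h0 : (0 : M.HP.Op A) ε x = 0 := rfl
    rw [h0, TensorProduct.tmul_zero, map_zero]
    rfl
  | add S T _ _ hS hT =>
    obtain ⟨S', hS', h1⟩ := hS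
    obtain ⟨T', hT', h2⟩ := hT
    refine ⟨S' + T', Submodule.add_mem _ hS' hT', fun ε x => ?_⟩
    have h3 : (S + T) ε x = S ε x + T ε x := rfl
    have h4 : ∀ y, (S' + T') ε y = S' ε y + T' ε y := fun _ => rfl
    rw [h3, h4, h1, h2, TensorProduct.tmul_add, map_add]
  | smul c T _ hT =>
    obtain ⟨T', hT', h2⟩ := hT
    refine ⟨algebraMap k k' c • T', Submodule.smul_mem _ _ hT', fun ε x => ?_⟩
    have h3 : (c • T) ε x = c • T ε x := rfl
    have h4 : ∀ y, (algebraMap k k' c • T') ε y = algebraMap k k' c • T' ε y := fun _ => rfl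
    rw [h3, h4, h2, ← map_smul, TensorProduct.tmul_smul, algebraMap_smul]

lemma Extension.scalar {k k' : Type} [Field k] [Field k'] [Algebra k k'] {M : Motives.{u, v, w} k}
    {M' : Motives.{u, v, w} k'} (B : Extension M M') (A : M.Cat) {ε : ZMod 2}
    {T : Module.End k (M.HP.obj ε A)} {T' : Module.End k' (M'.HP.obj ε (B.func.obj A))}
    (h : ∀ x : M.HP.obj ε A, T' (B.iso ε A (1 ⊗ₜ x)) = B.iso ε A (1 ⊗ₜ T x)) (a : k)
    (hT : T = a • LinearMap.id) : T' = algebraMap k k' a • LinearMap.id := by
  ext y
  obtain ⟨t, rfl⟩ := (B.iso ε A).surjective y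
  induction t using TensorProduct.induction_on with
  | zero => simp
  | tmul c x =>
    have h1 : (c ⊗ₜ[k] x : k' ⊗[k] M.HP.obj ε A) = c • (1 ⊗ₜ x) := by
      rw [TensorProduct.smul_tmul', smul_eq_mul, mul_one]
    rw [h1, map_smul, map_smul, h, hT]
    simp only [LinearMap.smul_apply, LinearMap.id_coe, id_eq]
    rw [TensorProduct.tmul_smul, smul_comm, ← algebraMap_smul k' a, map_smul]
  | add s t hs ht => rw [map_add, map_add, map_add, hs, ht]

section lift

variable {p : ℕ} [Fact p.Prime] {k : Type} [Field k] {C : Type u} [Category.{v} C]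
  [Preadditive C] {T : SuperFunctor.{u, v, w} (WittVector p k) C}
  {H : SuperFunctor.{u, v, w} k C} {S : Maps (fun c : WittVector p k => c.coeff 0) T H}

/-- Combinations of correspondences act on the topological periodic cyclic homology. -/
lemma exists_lift (hS : S.IsExact p) (A : C) {P : H.Op A} (hP : P ∈ H.alg A) :
    ∃ Q : T.Op A, (∀ ε x, S.red ε A (Q ε x) = P ε (S.red ε A x)) ∧
      ∀ ε x, S.bdry ε A (P (ε + 1) x) = Q ε (S.bdry ε A x) := by
  have hr0 : ∀ ε, S.red ε A 0 = 0 := fun ε => by
    have h := S.red_add ε A 0 0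
    rw [add_zero] at h
    exact left_eq_add.1 h
  have hb0 : ∀ ε, S.bdry ε A 0 = 0 := fun ε => by
    have h := S.bdry_add ε A 0 0
    rw [add_zero] at h
    exact left_eq_add.1 h
  induction hP using Submodule.span_induction with
  | mem P hP =>
    obtain ⟨z, rfl⟩ := hP
    exact ⟨fun ε => T.lin ε z, fun ε x => hS.red_natural ε A A z x,
      fun ε x => hS.bdry_natural ε A A z x⟩
  | zero =>
    refine ⟨fun _ => 0, fun ε x => ?_, fun ε x => ?_⟩
    · rw [LinearMap.zero_apply, hr0]
      rfl
    · have h0 : (0 : H.Op A) (ε + 1) x = 0 := rfl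
      rw [h0, hb0, LinearMap.zero_apply]
  | add P Q _ _ hP hQ =>
    obtain ⟨P', h1, h2⟩ := hP
    obtain ⟨Q', h3, h4⟩ := hQ
    refine ⟨fun ε => P' ε + Q' ε, fun ε x => ?_, fun ε x => ?_⟩
    · rw [LinearMap.add_apply, S.red_add, h1, h3]
      rfl
    · have h5 : (P + Q) (ε + 1) x = P (ε + 1) x + Q (ε + 1) x := rfl
      rw [h5, S.bdry_add, h2, h4, LinearMap.add_apply]
  | smul c P _ hP =>
    obtain ⟨P', h3, h4⟩ := hP
    obtain ⟨w, rfl⟩ := WittVector.constantCoeff_surjective p c
    refine ⟨fun ε => w • P' ε, fun ε x => ?_, fun ε x => ?_⟩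
    · rw [LinearMap.smul_apply, S.red_smul, h3]
      rfl
    · have h5 : (WittVector.constantCoeff w • P) (ε + 1) x = w.coeff 0 • P (ε + 1) x := rfl
      rw [h5, S.bdry_smul, h4, LinearMap.smul_apply]

lemma natCast_smul' {N : Type*} [AddCommGroup N] [Module (WittVector p k) N] (x : N) :
    (p : WittVector p k) • x = p • x := Nat.cast_smul_eq_nsmul _ _ _

variable [CharP k p] [PerfectRing k p]

/-- The main step over a perfect field. -/
theorem torsion_free (hS : S.IsExact p) (A : C)
    (hfin : ∀ ε, Module.Finite (WittVector p k) (T.obj ε A)) (a b : k) (hab : a ≠ b)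
    {P : H.Op A} (hP : P ∈ H.alg A) (h0 : P 0 = a • LinearMap.id) (h1 : P 1 = b • LinearMap.id)
    (ε : ZMod 2) (x : T.obj ε A) (hx : p • x = 0) : x = 0 := by
  obtain ⟨Q, hQ, hQ'⟩ := exists_lift hS A hP
  have hfin' := hfin ε
  have hnoeth : IsNoetherian (WittVector p k) (T.obj ε A) := inferInstance
  obtain ⟨a', b', hab', ha', hb'⟩ : ∃ a' b' : k, a' ≠ b' ∧ P ε = a' • LinearMap.id ∧
      P (ε + 1) = b' • LinearMap.id := by
    fin_cases ε
    · exact ⟨a, b, hab, h0, h1⟩
    · exact ⟨b, a, hab.symm, h1, h0⟩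
  obtain ⟨α, rfl⟩ := WittVector.constantCoeff_surjective p a'
  obtain ⟨β, rfl⟩ := WittVector.constantCoeff_surjective p b'
  refine no_torsion (p : WittVector p k) WittVector.constantCoeff
    (fun c hc => WittVector.isUnit_of_coeff_zero_ne_zero c hc)
    (AddMonoidHom.mk' (S.red ε A) (S.red_add ε A)) (AddMonoidHom.mk' (S.bdry ε A) (S.bdry_add ε A))
    (S.red_smul ε A) (S.bdry_smul ε A) (fun x hx => ?_) (fun x hx => ?_)
    (Q ε).toAddMonoidHom (P ε) (P (ε + 1))
    (fun w x => (Q ε).map_smul w x) (hQ ε) (hQ' ε) α β (fun v => ?_) (fun v => ?_) hab' x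
    (by rwa [natCast_smul'])
  · obtain ⟨y, hy⟩ := (hS.exact_red ε A x).1 hx
    exact ⟨y, by rw [natCast_smul']; exact hy⟩
  · rw [natCast_smul'] at hx
    obtain ⟨y, hy⟩ := (hS.exact_bdry ε A x).1 hx
    exact ⟨y, hy.symm⟩
  · rw [ha']
    rfl
  · rw [hb']
    rfl

lemma isTorsionFree {N : Type*} [AddCommGroup N] [Module (WittVector p k) N]
    (h : ∀ x : N, p • x = 0 → x = 0) : IsTorsionFree (WittVector p k) N := by
  have hp : ∀ (n : ℕ) (x : N), (p : WittVector p k) ^ n • x = 0 → x = 0 := by
    intro n
    induction n with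
    | zero => intro x hx; rwa [pow_zero, one_smul] at hx
    | succ n ih =>
      intro x hx
      rw [pow_succ', mul_smul, natCast_smul'] at hx
      exact ih x (h _ hx)
  refine ⟨fun r hr x y hxy => ?_⟩
  have hr0 : r ≠ 0 := hr.ne_zero
  obtain ⟨n, b, rfl⟩ := WittVector.exists_eq_pow_p_mul' r hr0
  have h1 : ((p : WittVector p k) ^ n * b) • (x - y) = 0 := by
    rw [smul_sub]
    exact sub_eq_zero.2 hxy
  rw [mul_smul] at h1
  have h2 := hp n _ h1
  exact sub_eq_zero.1 (b.isUnit.smul_eq_zero.1 h2)

omit [CharP k p] [PerfectRing k p] in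
/-- Without torsion the reduction is surjective. -/
lemma red_surjective (hS : S.IsExact p) (A : C)
    (h : ∀ (ε : ZMod 2) (x : T.obj ε A), p • x = 0 → x = 0) (ε : ZMod 2) :
    Function.Surjective (S.red ε A) := by
  obtain ⟨δ, rfl⟩ : ∃ δ : ZMod 2, ε = δ + 1 := ⟨ε - 1, by ring⟩
  intro v
  obtain ⟨y, hy⟩ := (hS.exact_mid δ A v).1 (h δ _ ((hS.exact_bdry δ A _).2 ⟨v, rfl⟩))
  exact ⟨y, hy.symm⟩

lemma finrank_eq (hS : S.IsExact p) (A : C)
    (hfin : ∀ ε, Module.Finite (WittVector p k) (T.obj ε A))
    (h : ∀ (ε : ZMod 2) (x : T.obj ε A), p • x = 0 → x = 0) (ε : ZMod 2) :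
    finrank k (H.obj ε A) = finrank (WittVector p k) (T.obj ε A) := by
  have h1 : IsTorsionFree (WittVector p k) (T.obj ε A) := isTorsionFree (h ε)
  have h2 := hfin ε
  have h3 : Module.Free (WittVector p k) (T.obj ε A) := inferInstance
  refine finrank_reduction (p := (p : WittVector p k)) WittVector.constantCoeff
    (WittVector.constantCoeff_surjective p) (fun w => ?_)
    (AddMonoidHom.mk' (S.red ε A) (S.red_add ε A)) (S.red_smul ε A)
    (fun x => ?_) (red_surjective hS A h ε)
  · rw [← RingHom.mem_ker, WittVector.ker_constantCoeff, Ideal.mem_span_singleton]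
    rfl
  · refine (hS.exact_red ε A x).trans ⟨fun ⟨y, hy⟩ => ⟨y, ?_⟩, fun ⟨y, hy⟩ => ⟨y, ?_⟩⟩
    · rw [natCast_smul']
      exact hy
    · rw [natCast_smul'] at hy
      exact hy

end lift

section theory

variable {p : ℕ} [Fact p.Prime] (T : Theory.{u, v, w} p) {k : Type} [Field k] [CharP k p]
  (k' : Type) [Field k'] [CharP k' p] [PerfectRing k' p] [Algebra k k'] (F E : Type) [Field F]
  [Field E] [Algebra k E] [Algebra F E]

/-- **The obstruction.** -/
theorem obstruction (A : (T.M k).Cat) (h : (T.M k).Separated F E A) : T.IsGood k' A := by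
  obtain ⟨a, b, hab, h⟩ := h
  obtain ⟨a', b', hab', S, hS, h0, h1⟩ := (T.M k).exists_alg A a b hab h
  obtain ⟨S', hS', h2⟩ := (T.bc k k').alg (T.natural k k') A hS
  have h3 : T.NoTorsion k' A :=
    torsion_free (T.exact k') ((T.bc k k').func.obj A) (fun ε => T.finite k' ε _)
      (algebraMap k k' a') (algebraMap k k' b')
      (fun h => hab' ((algebraMap k k').injective h)) hS'
      ((T.bc k k').scalar A (h2 0) a' h0) ((T.bc k k').scalar A (h2 1) b' h1)
  refine ⟨h3, fun ε => ?_⟩
  rw [Theory.rank, Theory.dim, ← finrank_eq (T.exact k') ((T.bc k k').func.obj A)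
    (fun ε => T.finite k' ε _) h3 ε, ← ((T.bc k k').iso ε A).finrank_eq, finrank_baseChange]

end theory

lemma subsingleton_of_tensor {k k' V : Type*} [Field k] [Field k'] [Algebra k k'] [AddCommGroup V]
    [Module k V] (h : Subsingleton (k' ⊗[k] V)) : Subsingleton V := by
  refine ⟨fun x y => ?_⟩
  obtain ⟨l, hl⟩ : ∃ l : k' →ₗ[k] k, l 1 ≠ 0 := by
    by_contra hcon
    push Not at hcon
    exact one_ne_zero ((Module.forall_dual_apply_eq_zero_iff k (1 : k')).1 hcon)
  have h1 : TensorProduct.lid k V (l.rTensor V (1 ⊗ₜ x)) =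
      TensorProduct.lid k V (l.rTensor V (1 ⊗ₜ y)) := by
    rw [Subsingleton.elim (1 ⊗ₜ[k] x : k' ⊗[k] V) (1 ⊗ₜ y)]
  simp only [LinearMap.rTensor_tmul, TensorProduct.lid_tmul] at h1
  exact smul_right_injective V hl h1

/-- The case without odd rational periodic cyclic homology. -/
theorem criterion {p : ℕ} [Fact p.Prime] (T : Theory.{u, v, w} p) {k : Type} [Field k] [CharP k p]
    (k' : Type) [Field k'] [CharP k' p] [PerfectRing k' p] [Algebra k k'] (F E : Type) [Field F]
    [Field E] [Algebra k E] [Algebra F E] (A : (T.M k).Cat) (hA : T.rank k' A 1 = 0) :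
    List.TFAE [(T.M k).PlusAlgebraic F E A, (T.M k).MinusAlgebraic F E A,
      (T.M k).Separated F E A, Subsingleton ((T.M k).HP.obj 1 A)] := by
  tfae_have 1 → 3 := fun h => ⟨1, 0, one_ne_zero, h⟩
  tfae_have 2 → 3 := fun h => ⟨0, 1, zero_ne_one, h⟩
  tfae_have 3 → 4 := by
    intro h
    have h1 : T.NoTorsion k' A := (obstruction T k' F E A h).1
    have h2 : IsTorsionFree (WittVector p k') (T.tp k' A 1) := isTorsionFree (h1 1)
    have h3 : Module.Finite (WittVector p k') (T.tp k' A 1) := T.finite k' 1 _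
    have h4 : Subsingleton (T.tp k' A 1) := by
      have h5 : Module.Free (WittVector p k') (T.tp k' A 1) := inferInstance
      exact (finrank_eq_zero_iff_of_free (WittVector p k') _).1 hA
    have h5 : Subsingleton ((T.M k').HP.obj 1 ((T.bc k k').func.obj A)) :=
      (red_surjective (T.exact k') _ h1 1).subsingleton
    exact subsingleton_of_tensor (k' := k') ((T.bc k k').iso 1 A).toEquiv.subsingleton
  tfae_have 4 → 1 := by
    intro h
    refine ⟨1, fun _ => 1, fun _ => 𝟙 A, fun x => ?_, fun x => ?_⟩
    · rw [Fin.sum_univ_one, map_one, (T.M k).HP.id]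
    · rw [Subsingleton.elim x 0]
      have h0 : (T.M k).HP.act 1 (𝟙 A) 0 = 0 := (T.M k).HP.id 1 A 0
      simp [h0]
  tfae_have 4 → 2 := by
    intro h
    refine ⟨0, fun _ => 0, fun _ => 0, fun x => ?_, fun x => ?_⟩
    · rw [Fin.sum_univ_zero, TensorProduct.zero_tmul]
    · rw [Subsingleton.elim x 0]
      simp
  tfae_finish

/-- **The noncommutative Kunneth standard conjecture fails over every field of positive
characteristic.** Let `k` be a field of characteristic `p > 0`, `F` a coefficient field and `E` a field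
which contains `k` and `F` (the larger one of the two in the problem).

(1) Let `A` be a saturated dg category over `k`. If `π⁺` or `π⁻` is algebraic, or if some
correspondence with coefficients in `F` acts on `HP⁺ (A)` and on `HP⁻ (A)` by two different scalars,
then, for every perfect field `k'` which contains `k`, `TP_*(A ⊗ k')` has no `p`-torsion, and the
dimensions of `HP⁺ (A)` and `HP⁻ (A)` are the ranks of `TP⁺ (A ⊗ k')` and `TP⁻ (A ⊗ k')`.

(2) If the rank of `TP⁻ (A ⊗ k')` is zero (for instance for varieties with `b_i = 0` for all odd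
`i`), then the following are equivalent: `π⁺` is algebraic; `π⁻` is algebraic; some correspondence acts
by two different scalars on `HP⁺ (A)` and `HP⁻ (A)`; `HP⁻ (A) = 0`.

(3) The Kunneth projectors `π⁺` and `π⁻` of `perf_dg(X_k)` are not algebraic, where `X` is a smooth
projective surface over the prime field with `b_1 = 0` and `H^1_dR ≠ 0`. -/
theorem result (p : ℕ) [Fact p.Prime] (T : Theory.{u, v, w} p) (k : Type) [Field k] [CharP k p]
    (F E : Type) [Field F] [Field E] [Algebra k E] [Algebra F E] :
    (∀ (k' : Type) [Field k'] [CharP k' p] [PerfectRing k' p] [Algebra k k'] (A : (T.M k).Cat),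
      (T.M k).Separated F E A → T.IsGood k' A) ∧
    (∀ (k' : Type) [Field k'] [CharP k' p] [PerfectRing k' p] [Algebra k k'] (A : (T.M k).Cat),
      T.rank k' A 1 = 0 → List.TFAE [(T.M k).PlusAlgebraic F E A, (T.M k).MinusAlgebraic F E A,
        (T.M k).Separated F E A, Subsingleton ((T.M k).HP.obj 1 A)]) ∧
    ∀ X : Surface T, ¬ (T.M k).PlusAlgebraic F E (X.perf k) ∧
      ¬ (T.M k).MinusAlgebraic F E (X.perf k) := by
  refine ⟨fun k' _ _ _ _ A h => obstruction T k' F E A h,
    fun k' _ _ _ _ A hA => criterion T k' F E A hA, fun X => ?_⟩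
  have hexp : ExpChar (AlgebraicClosure k) p := ExpChar.prime Fact.out
  have hperf : PerfectRing (AlgebraicClosure k) p := PerfectField.toPerfectRing p
  have key : ¬ (T.M k).Separated F E (X.perf k) := by
    intro h
    have h1 := (obstruction T (AlgebraicClosure k) F E (X.perf k) h).2 1
    rw [X.dim k, X.rank k (AlgebraicClosure k), X.b_one, X.b_three] at h1
    have := X.h_one
    omega
  exact ⟨fun h => key ⟨1, 0, one_ne_zero, h⟩, fun h => key ⟨0, 1, zero_ne_one, h⟩⟩

end Pool.Agent.Results.MP_eadf0f_ag.EveryPositiveCharacteristic
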