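import Pool.Agent.U672.NC.Sign

/-!
# The noncommutative Künneth conjecture for dg categories glued from systems of equations

`k` is a field of characteristic zero and `K` the triangulated category of noncommutative mixed motives over
`k` of Kontsevich with rational coefficients, in the form of its standard properties (`Facts`); it contains
the category of noncommutative Chow motives. `S` is periodic cyclic homology, with values in super vector
spaces and with the Künneth formula. `EvenAlgebraic S (U A)` is the conjecture `C_NC(A)`: the even (and
hence also the odd) Künneth projector of the smooth proper dg category `A` is algebraic. It is known for
`perf X` if `X` is smooth and proper of dimension at most two.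

**Theorem.** Let `N ≥ 1` be such that `C_NC (perf X)` is true for all smooth proper `X` of dimension at most
`N`; this is known for `N = 2`. Then `C_NC(A)` is true for every smooth proper dg category `A` which is
*glued* (`Glued`) from smooth proper dg categories for which it is true and from schemes which are
constructed from
* systems of equations of excess at most `N + 1` together with equations with independent exponents, in
  affine spaces of any dimension; for instance hypersurfaces with at most `N + 3` terms, and hypersurfaces
  with affinely independent exponents;
* equations `∑ f_j (x_j) = g (y)` where the `f_j` are polynomials in separate variables, each of them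
  quasi-homogeneous in at most `N + 1` variables or a trilinear form with a small block, and `g` is a
  function on an affine scheme of dimension at most `N`;
* schemes of dimension at most `N`, and smooth proper `X` with `C_NC (perf X)`;
by cutting and pasting, products and quotients by finite free coverings. These schemes may be singular and
not proper, so that the conjecture makes no sense for them, and `A` need not be related to a smooth proper
scheme of this kind. `A` is glued from them if its motive is in the thick tensor triangulated subcategory
which they generate: for instance if `A` has a semi-orthogonal decomposition, or is a categorical
resolution by gluing (Kuznetsov and Lunts), with such parts.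
-/

set_option autoImplicit false

open CategoryTheory MonoidalCategory AlgebraicGeometry Pool.Agent.TH137.DG Pool.Agent.Y116.UV
  Pool.Agent.Z125.UN Pool.Agent.U672.SF Pool.Agent.U672.NC

namespace Pool.Agent.Results.MP_eadf0f_ag.GluedCategories

universe v u w

/-- **Theorem.** Let `N ≥ 1`. If the Künneth projectors are algebraic for `perf X` for all smooth proper
schemes `X` of dimension at most `N` (this is known for `N = 2`), then they are algebraic for all smooth
proper dg categories which are glued from smooth proper dg categories with algebraic Künneth projectors
and schemes constructed from systems of equations of excess at most `N + 1`, sums of quasi-homogeneous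
polynomials in at most `N + 1` variables, schemes of dimension at most `N`, and smooth proper schemes `X`
such that the Künneth projectors of `perf X` are algebraic. -/
theorem result {k : Type} [Field k] [CharZero k] {K : Type u} [Category.{v} K]
    [MonoidalCategory K] [SymmetricCategory K] [Preadditive K] [Linear ℚ K]
    [Limits.HasZeroObject K] [HasShift K ℤ] [∀ n : ℤ, (shiftFunctor K n).Additive]
    [Pretriangulated K] {D : Data k K} (hD : Facts D) {F : Type} [Field F] [CharZero F]
    (S : Super.{v, u, w} K F) (N : ℕ) (hN : 1 ≤ N)
    (h : ∀ X, SmoothProper X → topologicalKrullDim X.left ≤ N →
      EvenAlgebraic S (D.U (D.perf X)))
    (A : D.DG) (hA : Glued D N (fun B => EvenAlgebraic S (D.U B)) A) :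
    EvenAlgebraic S (D.U A) := by
  have h1 := glued_pure hD hN h A hA
  generalize D.U A = B at h1 ⊢
  rw [even_iff]
  induction h1 with
  | gen B hB =>
    obtain ⟨B', hB', rfl⟩ := hB
    exact even_iff.mp hB'
  | factor A B T i₁ i₂ p₁ p₂ h _ _ h1 h2 => exact Sg.factor i₁ i₂ p₁ p₂ h h1 h2
  | tensor A B _ _ h1 h2 => exact Sg.tensor h1 h2

end Pool.Agent.Results.MP_eadf0f_ag.GluedCategories
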