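import Pool.Agent.U483.KN.Main

/-!
# The noncommutative Künneth conjecture and the Grothendieck ring of dg categories

Let `F` be a field extension of `k`. `𝓜` is the category of the noncommutative motives over `k` with
coefficients in `F` modulo homological equivalence, `M.U A` is the motive of the saturated dg category `A`, and `V i` is
the periodic cyclic homology `HP^+` for even `i`, `HP^-` for odd `i`. `CNC M V A` says that the Künneth projectors
of `A` are algebraic. `K0DG r` is the Grothendieck group of saturated dg categories of Bondal, Larsen and Lunts: `[A] = [B] + [C]`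
for semi-orthogonal decompositions. Known properties (`Motives`, `IsKunneth`): the spaces of morphisms are subspaces of
`Hom_F(HP(A), HP(B))` and finite-dimensional; semi-orthogonal decompositions give direct sums; Künneth formula.

* `C_NC(A)` holds if and only if a multiple of the class of `A` is in the subgroup of `K0DG r` generated by the classes
  of the saturated dg categories `B` with `C_NC(B)`. If `n [A] = n [A']`, `n ≠ 0`, then `C_NC(A)` holds if and only if
  `C_NC(A')` holds.
* Let `C_NC` be true for a class `B`. If a multiple of the class of `A` is in the subgroup generated by all dg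
  categories which are built from `B` by tensor products, semi-orthogonal decompositions (two out of three) and
  Morita equivalences, then `C_NC(A)` holds. In characteristic zero one can take for `B` the categories `perf_dg(X)` of all smooth projective
  `X` of dimension at most two, abelian varieties, ..., and finite-dimensional algebras of finite global dimension.

The category `𝓜` is not semisimple; the proof uses the additive function
`B ↦ dim Hom(B, A) - dim {morphisms which factor through motives with algebraic Künneth projectors}`.
-/

set_option autoImplicit false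

open CategoryTheory CategoryTheory.Limits Pool.Agent.U483.KS Pool.Agent.U483.KN

namespace Pool.Agent.Results.MP_eadf0f_ag.GrothendieckRing

universe w x

theorem result (DG : Type) (r : Relations DG) (F : Type) [Field F] (𝓜 : Type w) [Category.{x} 𝓜]
    [Preadditive 𝓜] [Linear F 𝓜] [HasBinaryBiproducts 𝓜] [HasZeroObject 𝓜]
    (M : Motives.{w, x} r F 𝓜) (V : ℤ → 𝓜 ⥤ ModuleCat.{0} F) [∀ i, (V i).Additive] :
    -- the conjecture in terms of a multiple of the class
    (∀ (A : DG) (n : ℤ), n ≠ 0 → (CNC M V A ↔ n • clsDG r A ∈ group r (CNC M V))) ∧
    (∀ (A A' : DG) (n : ℤ), n ≠ 0 → n • clsDG r A = n • clsDG r A' → (CNC M V A ↔ CNC M V A')) ∧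
    -- dg categories built from a class `B`
    (IsKunneth M V → ∀ B : DG → Prop, (∀ A, B A → CNC M V A) → ∀ (A : DG) (n : ℤ), n ≠ 0 →
      n • clsDG r A ∈ group r (Built r B) → CNC M V A) := by
  have key : ∀ (A : DG) (n : ℤ), n ≠ 0 → (CNC M V A ↔ n • clsDG r A ∈ group r (CNC M V)) := by
    intro A n hn
    refine ⟨fun h => ?_, fun h => mem_of_class M (thick_sign V) HasZeroObject.zero hn h⟩
    have h0 : clsDG r A ∈ group r (CNC M V) := AddSubgroup.subset_closure ⟨A, h, rfl⟩
    exact zsmul_mem h0 n
  refine ⟨key, fun A A' n hn h => ?_, fun hK B hB A n hn h => ?_⟩
  · rw [key A n hn, key A' n hn, h]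
  · refine (key A n hn).2 (AddSubgroup.closure_mono ?_ h)
    rintro _ ⟨C, hC, rfl⟩
    exact ⟨C, cnc_built hK hB hC, rfl⟩

end Pool.Agent.Results.MP_eadf0f_ag.GrothendieckRing
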